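import Pool.Agent.Lib.MP_a54f13_nt.EM.Spec
import Pool.Agent.Lib.MP_a54f13_nt.Dyn.Half3

/-!
Package `EM`, module `Ch`: log-convexity, from the flat setting to the half-plane.
-/

set_option autoImplicit false

namespace Pool.Agent.A54.EM

open MeasureTheory Filter Topology Set
open scoped ContDiff ComplexConjugate UpperHalfPlane MatrixGroups
open Pool.Agent.A54.Half (H0 qq ff hh)

noncomputable section

theorem stmtCh (hI : StmtInt) (hL : StmtLap) (hT : StmtCt) : StmtCh := by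
  intro f t hm j φ hφ hφ0 B ε hε
  obtain ⟨N, hN⟩ := Half.exists_N hm.lim
  obtain ⟨χ, V, hχ, h01, hV, hVO, h1, hsub⟩ := Half2.setupU Half2.isOpen_Ofd Half2.Ofd_sub hφ
  have hVH : V ⊆ H0 := hVO.trans Half2.Ofd_sub
  have hφV : TestR V φ := ⟨hφ.smooth, hφ.cpt, hsub⟩
  have hS := Half2.seq hL hχ h01 hV hVH h1 hm.form hm.lim hN
  have h := hT j V _ _ _ hS
    (fun z => φ z * (z.im)⁻¹ ^ 2) (Half.testR_weight hVH hφV)
    (fun z => mul_nonneg (hφ0 z) (sq_nonneg _)) B ε hε
  refine Half.ev_shift N ?_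
  filter_upwards [h] with i hi
  rw [Half.int_eq hI hVH h1 hφV, Half.int_eq hI hVH h1 hφV, Half.int_eq hI hVH h1 hφV]
  exact hi

end

end Pool.Agent.A54.EM
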