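import Pool.Agent.Lib.MP_a54f13_nt.EM.Spec
import Pool.Agent.Lib.MP_a54f13_nt.Ev.Trk
import Pool.Agent.Lib.MP_a54f13_nt.LocGen

/-!
Package `EM`, module `Ct`: log-convexity, local version; truncation of the test function.
-/

set_option autoImplicit false

namespace Pool.Agent.A54.EM.CtM

open MeasureTheory Filter Topology Set
open scoped ContDiff ComplexConjugate
open Pool.Agent.A54.Ev Pool.Agent.A54.Rel Pool.Agent.A54.LocGen Pool.Agent.A54.Ev.TrkM

noncomputable section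

variable {V : Set ℂ} {q : ℂ → ℝ} {h : ℕ → ℝ} {f : ℕ → ℂ → ℝ}

/-- `y^(j+1) ≤ δ y^(j+2) + δ^(-(j+1))` -/
lemma split_pow {y δ : ℝ} (hy : 0 ≤ y) (hδ : 0 < δ) (j : ℕ) :
    y ^ (j + 1) ≤ δ * y ^ (j + 2) + (1 / δ) ^ (j + 1) := by
  have hδ1 : 0 < 1 / δ := by positivity
  rcases le_total y (1 / δ) with h | h
  · have h1 : y ^ (j + 1) ≤ (1 / δ) ^ (j + 1) := pow_le_pow_left₀ hy h _
    have h2 : 0 ≤ δ * y ^ (j + 2) := by positivity
    linarith
  · have h1 : 1 ≤ δ * y := by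
      rw [div_le_iff₀ hδ] at h
      linarith
    have h2 : y ^ (j + 1) * 1 ≤ y ^ (j + 1) * (δ * y) := mul_le_mul_of_nonneg_left h1 (by positivity)
    have h3 : y ^ (j + 1) * (δ * y) = δ * y ^ (j + 2) := by ring
    have h4 : 0 ≤ (1 / δ) ^ (j + 1) := by positivity
    linarith

/-- comparison of the numbers -/
lemma numb {a b a0 a2 a0' a2' x M η ε K L : ℝ} (hb0 : 0 ≤ b) (ha : a ≤ b + η) (ha0 : 0 ≤ a)
    (haM : a ≤ M) (hη : 0 ≤ η) (hba : b ≤ a) (hK : 0 ≤ K) (hL : 0 ≤ L)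
    (h0 : 0 ≤ a0') (h00 : a0' ≤ a0) (h2 : 0 ≤ a2') (h22 : a2' ≤ a2)
    (hx : x = K * (2 * M) * η) (hxε : x ≤ ε / 2)
    (hmain : K * b ^ 2 - ε / 2 ≤ L * (a0' * a2')) : K * a ^ 2 - ε ≤ L * (a0 * a2) := by
  have h3 : a0' * a2' ≤ a0 * a2 := mul_le_mul h00 h22 h2 (h0.trans h00)
  have h4 := mul_le_mul_of_nonneg_left h3 hL
  have h5 : a ^ 2 - b ^ 2 ≤ 2 * M * η := by
    have e : a ^ 2 - b ^ 2 = (a + b) * (a - b) := by ring
    rw [e]
    have h6 : a + b ≤ 2 * M := by linarith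
    have h7 : a - b ≤ η := by linarith
    exact mul_le_mul h6 h7 (by linarith) (by linarith)
  have h8 : K * (a ^ 2 - b ^ 2) ≤ K * (2 * M * η) := mul_le_mul_of_nonneg_left h5 hK
  have h9 : K * (2 * M * η) = x := by rw [hx]; ring
  nlinarith

theorem _root_.Pool.Agent.A54.EM.stmtCt (hCv : StmtCv) : StmtCt := by
  intro j V q h f hS φ hφ hφ0 B ε hε
  by_contra hcon
  rw [Filter.not_eventually] at hcon
  obtain ⟨σ, hσ, hσ'⟩ := Filter.extraction_of_frequently_atTop hcon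
  have hj0 : (0 : ℝ) ≤ (j : ℝ) := Nat.cast_nonneg j
  set K : ℝ := ((j : ℝ) + 1) * (2 * j + 3) with hK
  set L : ℝ := (2 * (j : ℝ) + 1) * (j + 2) with hL
  have hK0 : 0 < K := by positivity
  have hL0 : 0 < L := by positivity
  have hbd : ∀ i, ∫ z, φ z * f (σ i) z ^ (2 * (j + 2)) ≤ B := by
    intro i
    have := hσ' i
    rw [Classical.not_imp] at this
    exact this.1
  have hlt : ∀ i, L * ((∫ z, φ z * f (σ i) z ^ (2 * j)) * ∫ z, φ z * f (σ i) z ^ (2 * (j + 2))) <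
      K * (∫ z, φ z * f (σ i) z ^ (2 * (j + 1))) ^ 2 - ε := by
    intro i
    have := hσ' i
    rw [Classical.not_imp, not_le] at this
    exact this.2
  have hfc : ∀ i, Continuous (f i) := fun i => (hS.sol i).smooth.continuous
  obtain ⟨ζ, hζ, hζ01, hζ1⟩ := exists_cutoff hφ.cpt.isCompact hS.pot.isOpen hφ.sub
  set U : ℝ := ∫ z, ζ z ^ 2 with hU
  have hU0 : 0 ≤ U := integral_nonneg fun z => sq_nonneg _
  have hnn : ∀ (w : ℂ → ℝ), (∀ z, 0 ≤ w z) → ∀ i m, 0 ≤ ∫ z, w z * f i z ^ (2 * m) := fun w hw i m =>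
    integral_nonneg fun z => mul_nonneg (hw z) (even_pow_nonneg _ _)
  have hBnn : 0 ≤ B := (hnn φ hφ0 (σ 0) (j + 2)).trans (hbd 0)
  have hφI : Integrable φ := hφ.integrable
  have hI00 : 0 ≤ ∫ z, φ z := integral_nonneg hφ0
  -- bound for the moments of order `2 (j + 1)`
  set M : ℝ := B + ∫ z, φ z with hM
  have hM0 : 0 ≤ M := by positivity
  have haM : ∀ i, ∫ z, φ z * f (σ i) z ^ (2 * (j + 1)) ≤ M := by
    intro i
    calc _ ≤ ∫ z, (φ z * f (σ i) z ^ (2 * (j + 2)) + φ z) := by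
          refine integral_mono (integrable_testR hφ ((hfc _).pow _))
            ((integrable_testR hφ ((hfc _).pow _)).add hφI) fun z => ?_
          have h1 := split_pow (sq_nonneg (f (σ i) z)) one_pos j
          rw [← pow_mul, ← pow_mul] at h1
          have h2 := mul_le_mul_of_nonneg_left h1 (hφ0 z)
          simp only [div_one, one_pow, one_mul] at h2 ⊢
          linarith
      _ = (∫ z, φ z * f (σ i) z ^ (2 * (j + 2))) + ∫ z, φ z :=
          integral_add (integrable_testR hφ ((hfc _).pow _)) hφI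
      _ ≤ _ := by rw [hM]; linarith [hbd i]
  have hB' : LkBdd (j + 2) {z | 0 < φ z} (fun i => f (σ i)) :=
    LkBdd_pos (by omega) hφ hφ0 (fun i => hfc (σ i)) hbd
  have hSeq : Seq {z | 0 < φ z} q (fun i => h (σ i)) (fun i => f (σ i)) :=
    Seq.sub hS (isOpen_pos hφ) (pos_sub hφ) hσ.tendsto_atTop
  obtain ⟨χ, hχ, h01, hχ1⟩ := exists_cutoffs hφ
  -- the parameters
  set η : ℝ := ε / (4 * (K * M + 1)) with hη
  have hη0 : 0 < η := by positivity
  have hηε : K * (2 * M) * η ≤ ε / 2 := by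
    rw [hη, mul_div_assoc', div_le_div_iff₀ (by positivity) (by norm_num)]
    nlinarith [mul_nonneg hK0.le hM0]
  set δ : ℝ := η / (2 * (B + 1)) with hδ
  have hδ0 : 0 < δ := by positivity
  have hδB : δ * B ≤ η / 2 := by
    rw [hδ, div_mul_eq_mul_div, div_le_div_iff₀ (by positivity) (by norm_num)]
    nlinarith
  have hlim : Tendsto (fun n : ℕ => (1 / δ) ^ (j + 1) * (1 / ((n : ℝ) + 1) * U)) atTop (𝓝 0) := by
    have h0 : Tendsto (fun n : ℕ => 1 / ((n : ℝ) + 1)) atTop (𝓝 0) :=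
      tendsto_one_div_add_atTop_nhds_zero_nat
    have h1 := (h0.mul_const U).const_mul ((1 / δ) ^ (j + 1))
    simpa using h1
  obtain ⟨n, hn⟩ := (hlim.eventually (gt_mem_nhds (show 0 < η / 2 by linarith))).exists
  have hw := TestR.mul_cut hφ (hχ n)
  have hw0 : ∀ z, 0 ≤ φ z * χ n z := fun z => mul_nonneg (hφ0 z) (h01 n z).1
  have hn0 : (0 : ℝ) ≤ 1 / ((n : ℝ) + 1) := by positivity
  obtain ⟨l, hl⟩ := (hCv j {z | 0 < φ z} q (fun i => h (σ i)) (fun i => f (σ i)) hSeq hB'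
    (fun z => φ z * χ n z) hw hw0 (ε / 2) (by linarith)).exists
  have c0 := int_cut_le hφ hφ0 (hχ n) (h01 n) (g := fun z => f (σ l) z ^ (2 * j))
    ((hfc _).pow _) (fun z => even_pow_nonneg _ _)
  have c1 := int_cut_le hφ hφ0 (hχ n) (h01 n) (g := fun z => f (σ l) z ^ (2 * (j + 1)))
    ((hfc _).pow _) (fun z => even_pow_nonneg _ _)
  have c2 := int_cut_le hφ hφ0 (hχ n) (h01 n) (g := fun z => f (σ l) z ^ (2 * (j + 2)))
    ((hfc _).pow _) (fun z => even_pow_nonneg _ _)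
  -- the loss in the middle moment
  have c3 : ∫ z, φ z * f (σ l) z ^ (2 * (j + 1)) ≤
      (∫ z, φ z * χ n z * f (σ l) z ^ (2 * (j + 1))) + η := by
    have k1 : Integrable (fun z => φ z * χ n z * f (σ l) z ^ (2 * (j + 1))) :=
      integrable_testR hw ((hfc _).pow _)
    have k2 : Integrable (fun z => δ * (φ z * f (σ l) z ^ (2 * (j + 2)))) :=
      (integrable_testR hφ ((hfc _).pow _)).const_mul _
    have hζ2 : Integrable (fun z => ζ z ^ 2) := by
      have h1 : HasCompactSupport (fun z => ζ z ^ 2) :=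
        hζ.cpt.comp_left (g := fun x : ℝ => x ^ 2) (by simp)
      exact (hζ.smooth.continuous.pow 2).integrable_of_hasCompactSupport h1
    have k3 : Integrable (fun z => (1 / δ) ^ (j + 1) * (1 / ((n : ℝ) + 1) * ζ z ^ 2)) :=
      (hζ2.const_mul _).const_mul _
    have k23 : Integrable (fun z => δ * (φ z * f (σ l) z ^ (2 * (j + 2))) +
        (1 / δ) ^ (j + 1) * (1 / ((n : ℝ) + 1) * ζ z ^ 2)) := k2.add k3
    have h1 : ∫ z, φ z * f (σ l) z ^ (2 * (j + 1)) ≤
        ∫ z, (φ z * χ n z * f (σ l) z ^ (2 * (j + 1)) + (δ * (φ z * f (σ l) z ^ (2 * (j + 2))) +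
          (1 / δ) ^ (j + 1) * (1 / ((n : ℝ) + 1) * ζ z ^ 2))) := by
      refine integral_mono (integrable_testR hφ ((hfc _).pow _)) (k1.add k23) fun z => ?_
      have h2 := split_pow (sq_nonneg (f (σ l) z)) hδ0 j
      rw [← pow_mul, ← pow_mul] at h2
      have hr0 : 0 ≤ φ z * (1 - χ n z) := mul_nonneg (hφ0 z) (by linarith [(h01 n z).2])
      have hr1 : φ z * (1 - χ n z) ≤ φ z :=
        mul_le_of_le_one_right (hφ0 z) (by linarith [(h01 n z).1])
      have hr2 : φ z * (1 - χ n z) ≤ 1 / ((n : ℝ) + 1) * ζ z ^ 2 := by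
        by_cases hz : z ∈ tsupport φ
        · have e1 : ζ z = 1 := hζ1.self_of_nhdsSet z hz
          rw [e1]
          by_cases hz2 : 1 / ((n : ℝ) + 1) ≤ φ z
          · rw [hχ1 n z hz2]
            simpa using hn0
          · rw [not_le] at hz2
            linarith
        · rw [image_eq_zero_of_notMem_tsupport hz, zero_mul]
          positivity
      have h3 := mul_le_mul_of_nonneg_left h2 hr0
      have h4 : φ z * (1 - χ n z) * (δ * f (σ l) z ^ (2 * (j + 2))) ≤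
          φ z * (δ * f (σ l) z ^ (2 * (j + 2))) :=
        mul_le_mul_of_nonneg_right hr1 (mul_nonneg hδ0.le (even_pow_nonneg _ _))
      have h5 : φ z * (1 - χ n z) * (1 / δ) ^ (j + 1) ≤
          1 / ((n : ℝ) + 1) * ζ z ^ 2 * (1 / δ) ^ (j + 1) :=
        mul_le_mul_of_nonneg_right hr2 (by positivity)
      simp only
      calc φ z * f (σ l) z ^ (2 * (j + 1)) = φ z * χ n z * f (σ l) z ^ (2 * (j + 1)) +
            φ z * (1 - χ n z) * f (σ l) z ^ (2 * (j + 1)) := by ring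
        _ ≤ φ z * χ n z * f (σ l) z ^ (2 * (j + 1)) +
            φ z * (1 - χ n z) * (δ * f (σ l) z ^ (2 * (j + 2)) + (1 / δ) ^ (j + 1)) := by linarith
        _ = φ z * χ n z * f (σ l) z ^ (2 * (j + 1)) +
            (φ z * (1 - χ n z) * (δ * f (σ l) z ^ (2 * (j + 2))) +
              φ z * (1 - χ n z) * (1 / δ) ^ (j + 1)) := by ring
        _ ≤ φ z * χ n z * f (σ l) z ^ (2 * (j + 1)) +
            (φ z * (δ * f (σ l) z ^ (2 * (j + 2))) +
              1 / ((n : ℝ) + 1) * ζ z ^ 2 * (1 / δ) ^ (j + 1)) := by linarith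
        _ = _ := by ring
    rw [integral_add k1 k23, integral_add k2 k3, integral_const_mul, integral_const_mul,
      integral_const_mul] at h1
    have h6 : δ * (∫ z, φ z * f (σ l) z ^ (2 * (j + 2))) ≤ δ * B :=
      mul_le_mul_of_nonneg_left (hbd l) hδ0.le
    linarith
  have c4 := numb (K := K) (L := L) (M := M) (η := η) (ε := ε) (hnn _ hw0 (σ l) (j + 1)) c3
    (hnn φ hφ0 (σ l) (j + 1)) (haM l) hη0.le c1 hK0.le hL0.le (hnn _ hw0 (σ l) j) c0
    (hnn _ hw0 (σ l) (j + 2)) c2 rfl hηε hl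
  have c5 := hlt l
  linarith

end

end Pool.Agent.A54.EM.CtM
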