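import Pool.Agent.Lib.MP_a54f13_nt.EM.Spec
import Pool.Agent.Lib.MP_a54f13_nt.Ev.Chn
import Pool.Agent.Lib.MP_a54f13_nt.Rel

/-!
Package `EM`, module `Cv`: log-convexity, local version with bounded moments.
-/

set_option autoImplicit false

namespace Pool.Agent.A54.EM

open MeasureTheory Filter Topology Set
open scoped ContDiff ComplexConjugate UpperHalfPlane MatrixGroups
open Pool.Agent.A54.Ev

noncomputable section

namespace CvM

open Pool.Agent.A54.Ev.ChnM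

variable {V : Set ℂ} {q : ℂ → ℝ}

lemma even_nn (k : ℕ) (x : ℝ) : 0 ≤ x ^ (2 * k) := by
  rw [pow_mul]; positivity

/-- the powers `x^(2m)` are bounded by `1 + x^(2k)` -/
lemma pow_le {x : ℝ} {m k : ℕ} (hk : m ≤ k) : x ^ (2 * m) ≤ 1 + x ^ (2 * k) := by
  have h0 : 0 ≤ x ^ 2 := sq_nonneg x
  rw [pow_mul, pow_mul]
  rcases le_total (x ^ 2) 1 with h | h
  · have h1 : (x ^ 2) ^ m ≤ 1 := pow_le_one₀ h0 h
    have h2 : 0 ≤ (x ^ 2) ^ k := pow_nonneg h0 k
    linarith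
  · have h1 : (x ^ 2) ^ m ≤ (x ^ 2) ^ k := pow_le_pow_right₀ h hk
    linarith

lemma LkBdd_mono {f : ℕ → ℂ → ℝ} {m k : ℕ} (hm : 1 ≤ m) (hk : m ≤ k) (hc : ∀ i, Continuous (f i))
    (h : LkBdd k V f) : LkBdd m V f := by
  intro ζ hζ
  obtain ⟨C, hC⟩ := h ζ hζ
  refine ⟨(∫ z, (tsupport ζ).indicator (fun _ => (1 : ℝ)) z) + C, fun i => ?_⟩
  have hK : IsCompact (tsupport ζ) := hζ.cpt
  have hind : Integrable ((tsupport ζ).indicator (fun _ => (1 : ℝ))) := by
    rw [integrable_indicator_iff hK.measurableSet]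
    exact integrableOn_const hK.measure_lt_top.ne
  have hcs : ∀ l : ℕ, l ≠ 0 → Integrable (fun z => ζ z ^ l * f i z ^ l) := by
    intro l hl
    apply Continuous.integrable_of_hasCompactSupport
    · exact (hζ.smooth.continuous.pow l).mul ((hc i).pow l)
    · apply HasCompactSupport.mul_right
      apply hζ.cpt.mono
      intro z hz hz0
      apply hz
      simp only
      rw [hz0, zero_pow hl]
  have h2 := hcs (2 * k) (by omega)
  calc ∫ z, ζ z ^ (2 * m) * f i z ^ (2 * m) ≤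
        ∫ z, ((tsupport ζ).indicator (fun _ => (1 : ℝ)) z + ζ z ^ (2 * k) * f i z ^ (2 * k)) := by
        apply integral_mono (hcs (2 * m) (by omega)) (hind.add h2)
        intro z
        change ζ z ^ (2 * m) * f i z ^ (2 * m) ≤
          (tsupport ζ).indicator (fun _ => (1 : ℝ)) z + ζ z ^ (2 * k) * f i z ^ (2 * k)
        rw [← mul_pow, ← mul_pow]
        by_cases hz : z ∈ tsupport ζ
        · rw [indicator_of_mem hz]
          exact pow_le hk
        · rw [indicator_of_notMem hz, image_eq_zero_of_notMem_tsupport hz, zero_mul,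
            zero_pow (by omega), zero_pow (by omega)]
          norm_num
    _ = (∫ z, (tsupport ζ).indicator (fun _ => (1 : ℝ)) z) +
        ∫ z, ζ z ^ (2 * k) * f i z ^ (2 * k) := integral_add hind h2
    _ ≤ _ := by linarith [hC i]

/-- bounded moments -/
lemma mom_bdd {f : ℕ → ℂ → ℝ} {k : ℕ} (hk : 1 ≤ k) (hV : IsOpen V) (hc : ∀ i, Continuous (f i))
    (h : LkBdd k V f) {φ : ℂ → ℝ} (hφ : TestR V φ) : ∃ B : ℝ, 0 ≤ B ∧
      ∀ i, ∫ z, φ z * f i z ^ (2 * k) ≤ B := by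
  obtain ⟨ζ, hζ, -, hζ1⟩ := exists_cutoff hφ.cpt.isCompact hV hφ.sub
  obtain ⟨Z, hZ0, hZ⟩ := Rel.test_bdd hφ
  obtain ⟨C, hC⟩ := h ζ hζ
  have hi : ∀ i, Integrable (fun z => ζ z ^ (2 * k) * f i z ^ (2 * k)) := by
    intro i
    apply Continuous.integrable_of_hasCompactSupport
    · exact (hζ.smooth.continuous.pow _).mul ((hc i).pow _)
    · apply HasCompactSupport.mul_right
      apply hζ.cpt.mono
      intro z hz hz0
      apply hz
      simp only
      rw [hz0, zero_pow (by omega)]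
  have hC0 : 0 ≤ C := (integral_nonneg fun z => mul_nonneg (even_nn k _) (even_nn k _)).trans (hC 0)
  refine ⟨Z * C, by positivity, fun i => ?_⟩
  calc _ ≤ ∫ z, Z * (ζ z ^ (2 * k) * f i z ^ (2 * k)) := by
        refine integral_mono (Rel.integrable_testR hφ ((hc i).pow _)) ((hi i).const_mul _) fun z => ?_
        by_cases hz : z ∈ tsupport φ
        · have e1 : ζ z = 1 := hζ1.self_of_nhdsSet z hz
          simp only [e1, one_pow, one_mul]
          exact mul_le_mul_of_nonneg_right ((le_abs_self _).trans (hZ z)) (even_nn k _)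
        · simp only
          rw [image_eq_zero_of_notMem_tsupport hz, zero_mul]
          exact mul_nonneg hZ0 (mul_nonneg (even_nn k _) (even_nn k _))
    _ = Z * ∫ z, ζ z ^ (2 * k) * f i z ^ (2 * k) := integral_const_mul _ _
    _ ≤ _ := mul_le_mul_of_nonneg_left (hC i) hZ0

/-- Cauchy–Schwarz with the weight `φ` -/
lemma cs {φ u v : ℂ → ℝ} (hφ0 : ∀ z, 0 ≤ φ z) (hu0 : ∀ z, 0 ≤ u z)
    (i1 : Integrable fun z => φ z * u z) (i2 : Integrable fun z => φ z * (u z * v z))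
    (i3 : Integrable fun z => φ z * (u z * v z ^ 2)) :
    (∫ z, φ z * (u z * v z)) ^ 2 ≤ (∫ z, φ z * u z) * ∫ z, φ z * (u z * v z ^ 2) := by
  set a := ∫ z, φ z * u z with ha
  set b := ∫ z, φ z * (u z * v z) with hb
  set c := ∫ z, φ z * (u z * v z ^ 2) with hc
  have key : ∀ t : ℝ, 0 ≤ a * (t * t) + (-2 * b) * t + c := by
    intro t
    have e : a * (t * t) + (-2 * b) * t + c = ∫ z, φ z * (u z * (v z - t) ^ 2) := by
      have e1 : ∫ z, φ z * (u z * (v z - t) ^ 2) =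
          (t * t) * a + ((-2 * t) * b + 1 * c) := by
        refine int3 i1 i2 i3 _ _ _ fun z => ?_
        ring
      rw [e1]
      ring
    rw [e]
    exact integral_nonneg fun z => mul_nonneg (hφ0 z) (mul_nonneg (hu0 z) (sq_nonneg _))
  have h := discrim_le_zero key
  unfold discrim at h
  nlinarith

/-- `E u^(2l+1) e^m X ≥ - o(1)` -/
lemma stepA (hDe : StmtDe) (hI2 : StmtId2) {k : ℕ} {h : ℕ → ℝ} {f : ℕ → ℂ → ℝ}
    (hS : Seq V q h f) (hB : LkBdd k V f) {φ : ℂ → ℝ} (hφ : TestR V φ) (hφ0 : ∀ z, 0 ≤ φ z) :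
    ∀ l m, l + m + 2 = k → ∀ ε : ℝ, 0 < ε → ∀ᶠ n in atTop,
      -ε ≤ ∫ z, φ z * (f n z ^ (2 * l + 1) * ee q (h n) (f n) z ^ m * xx q (h n) (f n) z) := by
  have hq := hS.pot
  have hf : ∀ n, Continuous (f n) := fun n => (hS.sol n).smooth.continuous
  have hee : ∀ n, ContDiff ℝ ∞ (ee q (h n) (f n)) := fun n => (hDe V q hq (h n) (f n) (hS.sol n)).1
  have he : ∀ n, Continuous (ee q (h n) (f n)) := fun n => (hee n).continuous
  have hx : ∀ n, Continuous (xx q (h n) (f n)) := fun n => cont_xx hq (hS.sol n).smooth (hee n)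
  have hy : ∀ n, Continuous (yy q (h n) (f n)) := fun n => cont_yy hq (hee n)
  have hn : ∀ n, Continuous (nn q (h n) (f n) 1) := fun n => Rel.continuous_nn hq (hS.sol n).smooth _ _
  have hint : ∀ {G : ℂ → ℝ}, Continuous G → Integrable (fun z => φ z * G z) :=
    fun hG => Rel.integrable_testR hφ hG
  have cX : ∀ a b n : ℕ, Continuous (fun z => f n z ^ a * ee q (h n) (f n) z ^ b *
      xx q (h n) (f n) z) := fun a b n => (((hf n).pow a).mul ((he n).pow b)).mul (hx n)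
  have cY : ∀ a m n : ℕ, Continuous (fun z => (2 * f n z ^ a * ee q (h n) (f n) z ^ m +
      (m : ℝ) * f n z ^ a * ee q (h n) (f n) z ^ (m - 1) * nn q (h n) (f n) 1 z) *
        yy q (h n) (f n) z) := fun a m n =>
    (((continuous_const.mul ((hf n).pow a)).mul ((he n).pow m)).add
      (((continuous_const.mul ((hf n).pow a)).mul ((he n).pow (m - 1))).mul (hn n))).mul (hy n)
  intro l
  induction l with
  | zero =>
    intro m hm ε hε
    have h1 := hI2 0 m k (by omega) V q h f hS hB φ hφ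
    filter_upwards [ev_lt h1 (show (0 : ℝ) < 4 * ε by linarith)] with n g
    have i1 := hint (cX (2 * 0 + 1) m n)
    have i2 := hint (cY (2 * 0) m n)
    have e1 : ∫ z, φ z * ((2 * ((0 : ℕ) : ℝ) * f n z ^ (2 * 0 - 1) * ee q (h n) (f n) z ^ (m + 1) -
        (2 * ((0 : ℕ) : ℝ) + 4) * f n z ^ (2 * 0 + 1) * ee q (h n) (f n) z ^ m) * xx q (h n) (f n) z +
        (2 * f n z ^ (2 * 0) * ee q (h n) (f n) z ^ m +
        (m : ℝ) * f n z ^ (2 * 0) * ee q (h n) (f n) z ^ (m - 1) * nn q (h n) (f n) 1 z) *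
        yy q (h n) (f n) z) =
        -4 * (∫ z, φ z * (f n z ^ (2 * 0 + 1) * ee q (h n) (f n) z ^ m * xx q (h n) (f n) z)) +
        ∫ z, φ z * ((2 * f n z ^ (2 * 0) * ee q (h n) (f n) z ^ m +
        (m : ℝ) * f n z ^ (2 * 0) * ee q (h n) (f n) z ^ (m - 1) * nn q (h n) (f n) 1 z) *
        yy q (h n) (f n) z) := by
      rw [← integral_const_mul, ← integral_add (i1.const_mul _) i2]
      congr 1
      funext z
      push_cast
      ring
    have e2 : 0 ≤ ∫ z, φ z * ((2 * f n z ^ (2 * 0) * ee q (h n) (f n) z ^ m +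
        (m : ℝ) * f n z ^ (2 * 0) * ee q (h n) (f n) z ^ (m - 1) * nn q (h n) (f n) 1 z) *
        yy q (h n) (f n) z) := by
      refine integral_nonneg fun z => mul_nonneg (hφ0 z) (mul_nonneg ?_ (yy_nonneg hq _ _ _))
      have h3 := ee_nonneg hq (h n) (f n) z
      have h4 : 0 ≤ nn q (h n) (f n) 1 z := Rel.nn_nonneg hq 1
      have h5 : 0 ≤ f n z ^ (2 * 0) := (even_two_mul 0).pow_nonneg _
      positivity
    rw [e1] at g
    linarith
  | succ l ih =>
    intro m hm ε hε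
    have h1 := hI2 (l + 1) m k (by omega) V q h f hS hB φ hφ
    have hl0 : (0 : ℝ) ≤ (l : ℝ) := Nat.cast_nonneg l
    filter_upwards [ev_lt h1 hε, ih (m + 1) (by omega) ε hε] with n g g'
    have i1 := hint (cX (2 * (l + 1) + 1) m n)
    have i0 := hint (cX (2 * l + 1) (m + 1) n)
    have i2 := hint (cY (2 * (l + 1)) m n)
    have hexp : 2 * (l + 1) - 1 = 2 * l + 1 := by omega
    rw [hexp] at g
    have e1 : ∫ z, φ z * ((2 * ((l + 1 : ℕ) : ℝ) * f n z ^ (2 * l + 1) *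
        ee q (h n) (f n) z ^ (m + 1) -
        (2 * ((l + 1 : ℕ) : ℝ) + 4) * f n z ^ (2 * (l + 1) + 1) * ee q (h n) (f n) z ^ m) *
          xx q (h n) (f n) z +
        (2 * f n z ^ (2 * (l + 1)) * ee q (h n) (f n) z ^ m +
        (m : ℝ) * f n z ^ (2 * (l + 1)) * ee q (h n) (f n) z ^ (m - 1) * nn q (h n) (f n) 1 z) *
        yy q (h n) (f n) z) =
        2 * ((l : ℝ) + 1) * (∫ z, φ z * (f n z ^ (2 * l + 1) * ee q (h n) (f n) z ^ (m + 1) *
          xx q (h n) (f n) z)) +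
        (-(2 * (l : ℝ) + 6) * (∫ z, φ z * (f n z ^ (2 * (l + 1) + 1) * ee q (h n) (f n) z ^ m *
          xx q (h n) (f n) z)) +
        1 * ∫ z, φ z * ((2 * f n z ^ (2 * (l + 1)) * ee q (h n) (f n) z ^ m +
        (m : ℝ) * f n z ^ (2 * (l + 1)) * ee q (h n) (f n) z ^ (m - 1) * nn q (h n) (f n) 1 z) *
        yy q (h n) (f n) z)) := by
      refine int3 i0 i1 i2 _ _ _ fun z => ?_
      push_cast
      ring
    have e2 : 0 ≤ ∫ z, φ z * ((2 * f n z ^ (2 * (l + 1)) * ee q (h n) (f n) z ^ m +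
        (m : ℝ) * f n z ^ (2 * (l + 1)) * ee q (h n) (f n) z ^ (m - 1) * nn q (h n) (f n) 1 z) *
        yy q (h n) (f n) z) := by
      refine integral_nonneg fun z => mul_nonneg (hφ0 z) (mul_nonneg ?_ (yy_nonneg hq _ _ _))
      have h3 := ee_nonneg hq (h n) (f n) z
      have h4 : 0 ≤ nn q (h n) (f n) 1 z := Rel.nn_nonneg hq 1
      have h5 : 0 ≤ f n z ^ (2 * (l + 1)) := (even_two_mul _).pow_nonneg _
      positivity
    rw [e1] at g
    set P := ∫ z, φ z * (f n z ^ (2 * l + 1) * ee q (h n) (f n) z ^ (m + 1) *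
          xx q (h n) (f n) z)
    set Q := ∫ z, φ z * (f n z ^ (2 * (l + 1) + 1) * ee q (h n) (f n) z ^ m *
          xx q (h n) (f n) z)
    have e3 : 2 * ((l : ℝ) + 1) * (-ε) ≤ 2 * ((l : ℝ) + 1) * P :=
      mul_le_mul_of_nonneg_left g' (by positivity)
    have e4 : (2 * (l : ℝ) + 6) * (-ε) ≤ (2 * (l : ℝ) + 6) * Q := by nlinarith
    exact le_of_mul_le_mul_left e4 (by positivity)

/-- the numbers -/
lemma fin {j : ℝ} (hj : 0 ≤ j) {a0 a1 a2 P1 P2 R δ B : ℝ} (ha0 : 0 ≤ a0) (ha1 : 0 ≤ a1)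
    (hP1 : 0 ≤ P1) (ha0B : a0 ≤ B) (ha1B : a1 ≤ B) (hδ : 0 ≤ δ) (hδ1 : δ ≤ 1)
    (hcs : P1 ^ 2 ≤ a0 * P2)
    (h1 : |(2 * j + 1) * P1 - (2 * j + 2) * a1| ≤ δ)
    (h2 : |(2 * j + 3) * R - (2 * j + 4) * a2| ≤ δ)
    (h3 : (2 * j + 1) * P2 - δ ≤ (2 * j + 2) * R) :
    (j + 1) * (2 * j + 3) * a1 ^ 2 - δ * ((2 * j + 3) * (2 * (j + 1) * B + 1 + (2 * j + 1) * B) +
      (2 * j + 1) * (j + 1) * B) ≤ (2 * j + 1) * (j + 2) * (a0 * a2) := by
  have hB : 0 ≤ B := ha0.trans ha0B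
  rw [abs_le] at h1 h2
  -- `(2j+2)^2 a1^2 ≤ ((2j+1) P1 + δ)^2`
  have hx0 : 0 ≤ (2 * j + 2) * a1 := by positivity
  have hx : (2 * j + 2) * a1 ≤ (2 * j + 1) * P1 + δ := by linarith [h1.1]
  have hy0 : 0 ≤ (2 * j + 1) * P1 := by positivity
  have hyB : (2 * j + 1) * P1 ≤ (2 * j + 2) * B + 1 := by
    have : (2 * j + 2) * a1 ≤ (2 * j + 2) * B := mul_le_mul_of_nonneg_left ha1B (by positivity)
    linarith [h1.2]
  have s1 : ((2 * j + 2) * a1) ^ 2 ≤ ((2 * j + 1) * P1 + δ) ^ 2 := pow_le_pow_left₀ hx0 hx 2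
  have s2 : ((2 * j + 1) * P1 + δ) ^ 2 ≤ ((2 * j + 1) * P1) ^ 2 +
      δ * (2 * ((2 * j + 2) * B + 1) + 1) := by
    have e : ((2 * j + 1) * P1 + δ) ^ 2 = ((2 * j + 1) * P1) ^ 2 +
      δ * (2 * ((2 * j + 1) * P1) + δ) := by ring
    rw [e]
    have : δ * (2 * ((2 * j + 1) * P1) + δ) ≤ δ * (2 * ((2 * j + 2) * B + 1) + 1) :=
      mul_le_mul_of_nonneg_left (by linarith) hδ
    linarith
  have s3 : ((2 * j + 1) * P1) ^ 2 ≤ (2 * j + 1) * (a0 * ((2 * j + 1) * P2)) := by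
    have : (2 * j + 1) ^ 2 * P1 ^ 2 ≤ (2 * j + 1) ^ 2 * (a0 * P2) :=
      mul_le_mul_of_nonneg_left hcs (by positivity)
    calc _ = (2 * j + 1) ^ 2 * P1 ^ 2 := by ring
      _ ≤ _ := this
      _ = _ := by ring
  have s4 : (2 * j + 3) * ((2 * j + 1) * P2) ≤ (2 * j + 2) * (2 * j + 4) * a2 +
      δ * (4 * j + 5) := by
    have t1 : (2 * j + 3) * ((2 * j + 1) * P2) ≤ (2 * j + 3) * ((2 * j + 2) * R + δ) :=
      mul_le_mul_of_nonneg_left (by linarith) (by positivity)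
    have t2 : (2 * j + 2) * ((2 * j + 3) * R) ≤ (2 * j + 2) * ((2 * j + 4) * a2 + δ) :=
      mul_le_mul_of_nonneg_left (by linarith [h2.2]) (by positivity)
    nlinarith
  have s5 : (2 * j + 1) * a0 * ((2 * j + 3) * ((2 * j + 1) * P2)) ≤
      (2 * j + 1) * a0 * ((2 * j + 2) * (2 * j + 4) * a2 + δ * (4 * j + 5)) :=
    mul_le_mul_of_nonneg_left s4 (by positivity)
  have s6 : (2 * j + 3) * ((2 * j + 2) * a1) ^ 2 ≤
      (2 * j + 3) * (((2 * j + 1) * P1) ^ 2 + δ * (2 * ((2 * j + 2) * B + 1) + 1)) :=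
    mul_le_mul_of_nonneg_left (s1.trans s2) (by positivity)
  have s7 : (2 * j + 3) * ((2 * j + 1) * P1) ^ 2 ≤
      (2 * j + 3) * ((2 * j + 1) * (a0 * ((2 * j + 1) * P2))) :=
    mul_le_mul_of_nonneg_left s3 (by positivity)
  have s8 : (2 * j + 1) * a0 * (δ * (4 * j + 5)) ≤ (2 * j + 1) * B * (δ * (4 * j + 5)) :=
    mul_le_mul_of_nonneg_right (mul_le_mul_of_nonneg_left ha0B (by positivity)) (by positivity)
  have s9 : 4 * (j + 1) * ((j + 1) * (2 * j + 3) * a1 ^ 2) ≤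
      4 * (j + 1) * ((2 * j + 1) * (j + 2) * (a0 * a2)) +
      δ * ((2 * j + 3) * (2 * ((2 * j + 2) * B + 1) + 1) + (2 * j + 1) * B * (4 * j + 5)) := by
    nlinarith
  have s10 : δ * ((2 * j + 3) * (2 * ((2 * j + 2) * B + 1) + 1) + (2 * j + 1) * B * (4 * j + 5)) ≤
      4 * (j + 1) * (δ * ((2 * j + 3) * (2 * (j + 1) * B + 1 + (2 * j + 1) * B) +
      (2 * j + 1) * (j + 1) * B)) := by
    have : (2 * j + 3) * (2 * ((2 * j + 2) * B + 1) + 1) + (2 * j + 1) * B * (4 * j + 5) ≤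
      4 * (j + 1) * ((2 * j + 3) * (2 * (j + 1) * B + 1 + (2 * j + 1) * B) +
      (2 * j + 1) * (j + 1) * B) := by
      have hjB : 0 ≤ j * B := by positivity
      have hjjB : 0 ≤ j * j * B := by positivity
      have hjjjB : 0 ≤ j * j * j * B := by positivity
      nlinarith [mul_nonneg hj hj]
    calc _ ≤ δ * (4 * (j + 1) * ((2 * j + 3) * (2 * (j + 1) * B + 1 + (2 * j + 1) * B) +
      (2 * j + 1) * (j + 1) * B)) := mul_le_mul_of_nonneg_left this hδ
      _ = _ := by ring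
  have s11 : 4 * (j + 1) * ((j + 1) * (2 * j + 3) * a1 ^ 2 -
      δ * ((2 * j + 3) * (2 * (j + 1) * B + 1 + (2 * j + 1) * B) + (2 * j + 1) * (j + 1) * B)) ≤
      4 * (j + 1) * ((2 * j + 1) * (j + 2) * (a0 * a2)) := by linarith
  exact le_of_mul_le_mul_left s11 (by positivity)

end CvM

open CvM Pool.Agent.A54.Ev.ChnM in
theorem stmtCv (hDe : StmtDe) (hI1 : StmtId1) (hI2 : StmtId2) : StmtCv := by
  intro j V q h f hS hB φ hφ hφ0 ε hε
  have hq := hS.pot
  have hf : ∀ n, Continuous (f n) := fun n => (hS.sol n).smooth.continuous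
  have hee : ∀ n, ContDiff ℝ ∞ (ee q (h n) (f n)) := fun n => (hDe V q hq (h n) (f n) (hS.sol n)).1
  have he : ∀ n, Continuous (ee q (h n) (f n)) := fun n => (hee n).continuous
  have hx : ∀ n, Continuous (xx q (h n) (f n)) := fun n => cont_xx hq (hS.sol n).smooth (hee n)
  have hint : ∀ {G : ℂ → ℝ}, Continuous G → Integrable (fun z => φ z * G z) :=
    fun hG => Rel.integrable_testR hφ hG
  have hB1 : LkBdd (j + 1) V f := LkBdd_mono (by omega) (by omega) hf hB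
  obtain ⟨B1, hB10, hB1'⟩ := mom_bdd (by omega) hq.isOpen hf hB1 hφ
  -- bound for the moment of order `2j`
  have hφ1 : Integrable φ := hφ.integrable
  have hm0 : ∀ n, ∫ z, φ z * f n z ^ (2 * j) ≤ (∫ z, φ z) + B1 := by
    intro n
    calc _ ≤ ∫ z, (φ z + φ z * f n z ^ (2 * (j + 1))) := by
          refine integral_mono (hint ((hf n).pow _)) (hφ1.add (hint ((hf n).pow _))) fun z => ?_
          have h1 := mul_le_mul_of_nonneg_left (pow_le (x := f n z) (show j ≤ j + 1 by omega)) (hφ0 z)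
          simp only at h1 ⊢
          linarith
      _ = (∫ z, φ z) + ∫ z, φ z * f n z ^ (2 * (j + 1)) := integral_add hφ1 (hint ((hf n).pow _))
      _ ≤ _ := by linarith [hB1' n]
  have hI0 : 0 ≤ ∫ z, φ z := integral_nonneg hφ0
  set B : ℝ := (∫ z, φ z) + B1 with hBdef
  have hBnn : 0 ≤ B := by positivity
  have hj0 : (0 : ℝ) ≤ (j : ℝ) := Nat.cast_nonneg j
  set D : ℝ := (2 * (j : ℝ) + 3) * (2 * (j + 1) * B + 1 + (2 * j + 1) * B) +
      (2 * j + 1) * (j + 1) * B with hD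
  have hD0 : 0 < D := by positivity
  set δ : ℝ := min 1 (ε / D) with hδ
  have hδ0 : 0 < δ := lt_min one_pos (by positivity)
  have hδ1 : δ ≤ 1 := min_le_left _ _
  have hδD : δ * D ≤ ε := by
    have : δ ≤ ε / D := min_le_right _ _
    calc δ * D ≤ ε / D * D := mul_le_mul_of_nonneg_right this hD0.le
      _ = ε := by field_simp
  -- the three relations
  have r1 := hI1 j 0 (j + 1) rfl V q h f hS hB1 φ hφ
  have r2 := hI1 (j + 1) 0 (j + 2) rfl V q h f hS hB φ hφ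
  have r3 := hI1 j 1 (j + 2) rfl V q h f hS hB φ hφ
  have r4 := stepA hDe hI2 hS hB hφ hφ0 j 0 rfl (δ / 2) (by positivity)
  filter_upwards [ev_lt r1 hδ0, ev_gt r1 hδ0, ev_lt r2 hδ0, ev_gt r2 hδ0,
    ev_lt r3 (show 0 < δ / 2 by positivity), r4] with n g1 g1' g2 g2' g3 g4
  have cP : ∀ a b : ℕ, Continuous (fun z => f n z ^ a * ee q (h n) (f n) z ^ b) :=
    fun a b => ((hf n).pow a).mul ((he n).pow b)
  have cX : ∀ a b : ℕ, Continuous (fun z => f n z ^ a * ee q (h n) (f n) z ^ b *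
      xx q (h n) (f n) z) := fun a b => (cP a b).mul (hx n)
  -- rewriting
  have e0 : ∀ s : ℕ, ∫ z, φ z * ((2 * (s : ℝ) + 1) * f n z ^ (2 * s) * ee q (h n) (f n) z ^ (0 + 1) -
      (2 * (s : ℝ) + 2) * f n z ^ (2 * s + 2) * ee q (h n) (f n) z ^ 0 +
      ((0 : ℕ) : ℝ) * f n z ^ (2 * s + 1) * ee q (h n) (f n) z ^ (0 - 1) * xx q (h n) (f n) z) =
      (2 * (s : ℝ) + 1) * (∫ z, φ z * (f n z ^ (2 * s) * ee q (h n) (f n) z)) -
      (2 * (s : ℝ) + 2) * ∫ z, φ z * f n z ^ (2 * (s + 1)) := by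
    intro s
    have k1 : Integrable (fun z => φ z * (f n z ^ (2 * s) * ee q (h n) (f n) z)) :=
      hint (((hf n).pow _).mul (he n))
    have k2 : Integrable (fun z => φ z * f n z ^ (2 * (s + 1))) := hint ((hf n).pow _)
    rw [← integral_const_mul, ← integral_const_mul, ← integral_sub (k1.const_mul _) (k2.const_mul _)]
    congr 1
    funext z
    have : 2 * (s + 1) = 2 * s + 2 := by ring
    rw [this]
    push_cast
    ring
  rw [e0 j] at g1 g1'
  rw [e0 (j + 1)] at g2 g2'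
  have e3 : ∫ z, φ z * ((2 * (j : ℝ) + 1) * f n z ^ (2 * j) * ee q (h n) (f n) z ^ (1 + 1) -
      (2 * (j : ℝ) + 2) * f n z ^ (2 * j + 2) * ee q (h n) (f n) z ^ 1 +
      ((1 : ℕ) : ℝ) * f n z ^ (2 * j + 1) * ee q (h n) (f n) z ^ (1 - 1) * xx q (h n) (f n) z) =
      (2 * (j : ℝ) + 1) * (∫ z, φ z * (f n z ^ (2 * j) * ee q (h n) (f n) z ^ 2)) +
      (-(2 * (j : ℝ) + 2) * (∫ z, φ z * (f n z ^ (2 * (j + 1)) * ee q (h n) (f n) z)) +
      1 * ∫ z, φ z * (f n z ^ (2 * j + 1) * ee q (h n) (f n) z ^ 0 * xx q (h n) (f n) z)) := by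
    have k1 : Integrable (fun z => φ z * (f n z ^ (2 * j) * ee q (h n) (f n) z ^ 2)) :=
      hint (cP _ _)
    have k2 : Integrable (fun z => φ z * (f n z ^ (2 * (j + 1)) * ee q (h n) (f n) z)) :=
      hint (((hf n).pow _).mul (he n))
    have k3 : Integrable (fun z => φ z * (f n z ^ (2 * j + 1) * ee q (h n) (f n) z ^ 0 *
      xx q (h n) (f n) z)) := hint (cX _ _)
    refine int3 k1 k2 k3 _ _ _ fun z => ?_
    have : 2 * (j + 1) = 2 * j + 2 := by ring
    rw [this]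
    push_cast
    ring
  rw [e3] at g3
  have hcs := cs (φ := φ) (u := fun z => f n z ^ (2 * j)) (v := ee q (h n) (f n)) hφ0
    (fun z => even_nn j _) (hint ((hf n).pow _)) (hint (((hf n).pow _).mul (he n)))
    (hint (cP _ _))
  have hfin := fin hj0 (a0 := ∫ z, φ z * f n z ^ (2 * j)) (a1 := ∫ z, φ z * f n z ^ (2 * (j + 1)))
    (a2 := ∫ z, φ z * f n z ^ (2 * (j + 2)))
    (P1 := ∫ z, φ z * (f n z ^ (2 * j) * ee q (h n) (f n) z))
    (P2 := ∫ z, φ z * (f n z ^ (2 * j) * ee q (h n) (f n) z ^ 2))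
    (R := ∫ z, φ z * (f n z ^ (2 * (j + 1)) * ee q (h n) (f n) z)) (δ := δ) (B := B)
    (integral_nonneg fun z => mul_nonneg (hφ0 z) (even_nn _ _))
    (integral_nonneg fun z => mul_nonneg (hφ0 z) (even_nn _ _))
    (integral_nonneg fun z => mul_nonneg (hφ0 z) (mul_nonneg (even_nn _ _) (ee_nonneg hq _ _ _)))
    (hm0 n) (by linarith [hB1' n]) hδ0.le hδ1 hcs
    (abs_le.2 ⟨g1'.le, g1.le⟩)
    (by
      have h1 : 2 * (((j + 1 : ℕ) : ℝ)) + 1 = 2 * (j : ℝ) + 3 := by push_cast; ring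
      have h2 : 2 * (((j + 1 : ℕ) : ℝ)) + 2 = 2 * (j : ℝ) + 4 := by push_cast; ring
      rw [h1, h2] at g2 g2'
      exact abs_le.2 ⟨g2'.le, g2.le⟩)
    (by linarith)
  linarith

end

end Pool.Agent.A54.EM
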