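import Pool.Agent.Lib.MP_a54f13_nt.EM.Spec
import Pool.Agent.Lib.MP_a54f13_nt.EM.Ct
import Pool.Agent.Lib.MP_a54f13_nt.X2

/-!
Package `EM`, module `Cx`: log-convexity, from the half-plane to the modular surface.
-/

set_option autoImplicit false

namespace Pool.Agent.A54.EM

open MeasureTheory Filter Topology Set
open scoped ContDiff ComplexConjugate UpperHalfPlane MatrixGroups
open Pool.Agent.A54.Ev

noncomputable section

namespace CxM

open Pool.Agent.A54.X Pool.Agent.A54.X2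

lemma main (f : ℕ → ℍ → ℝ) (t : ℕ → ℝ) (hf : ∀ i, IsHeckeMaass (f i) (t i)) (j : ℕ)
    (hR : HalfC j f) : FinalC j f := by
  intro ψ hψ hψ0 B ε hε
  obtain ⟨Y, hY⟩ := hψ.cusp
  have hψc : Continuous ψ := continuous_of_ext hψ.smooth
  have hYo : ∀ z ∈ ModularGroup.fdo, Y < z.im → ψ z = 0 := fun z hz h =>
    hY z (ModularGroup.fdo_subset_fd hz) h
  have hfc : ∀ i, Continuous (f i) := fun i => continuous_of_ext (hf i).smooth
  have hψi : IntegrableOn ψ ModularGroup.fdo := integrableOn_fdo hψc hYo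
  have him : ∀ i m, IntegrableOn (fun z => ψ z * f i z ^ m) ModularGroup.fdo := fun i m =>
    integrableOn_fdo (hψc.mul ((hfc i).pow m)) (fun z hz h => by rw [hYo z hz h, zero_mul])
  have hev : ∀ i m z, (0 : ℝ) ≤ f i z ^ (2 * m) := fun i m z => (even_two_mul m).pow_nonneg _
  have hj0 : (0 : ℝ) ≤ (j : ℝ) := Nat.cast_nonneg j
  set K : ℝ := ((j : ℝ) + 1) * (2 * j + 3) with hK
  set L : ℝ := (2 * (j : ℝ) + 1) * (j + 2) with hL
  have hK0 : 0 < K := by positivity
  have hL0 : 0 < L := by positivity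
  set A : ℝ := ∫ z in ModularGroup.fdo, ψ z with hA
  have hA0 : 0 ≤ A := integral_nonneg hψ0
  rcases lt_or_ge B 0 with hBneg | hB0
  · refine Eventually.of_forall fun i h => ?_
    have h1 : 0 ≤ ∫ z in ModularGroup.fdo, ψ z * f i z ^ (2 * (j + 2)) :=
      integral_nonneg fun z => mul_nonneg (hψ0 z) (hev _ _ _)
    linarith
  -- parameters
  set M : ℝ := B + A with hM
  have hM0 : 0 ≤ M := by positivity
  set η : ℝ := ε / (4 * (K * M + 1)) with hη
  have hη0 : 0 < η := by positivity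
  have hηε : K * (2 * M) * η ≤ ε / 2 := by
    rw [hη, mul_div_assoc', div_le_div_iff₀ (by positivity) (by norm_num)]
    nlinarith [mul_nonneg hK0.le hM0]
  set δ : ℝ := η / (2 * (B + 1)) with hδ
  have hδ0 : 0 < δ := by positivity
  have hδB : δ * B ≤ η / 2 := by
    rw [hδ, div_mul_eq_mul_div, div_le_div_iff₀ (by positivity) (by norm_num)]
    nlinarith
  set W : ℝ := (1 / δ) ^ (j + 1) with hW
  have hW0 : 0 < W := by positivity
  obtain ⟨Kc, hKc, hKO, hKi⟩ := exists_compact ψ hψi (ε := η / (2 * W)) (by positivity)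
  obtain ⟨χ, hχ, hχ1, hχK⟩ := exists_cutoff hKc isOpen_O hKO
  have hχK' : ∀ z ∈ Kc, χ z = 1 := fun z hz => hχK.self_of_nhdsSet z hz
  have hχc : Continuous (fun z : ℍ => χ z) := hχ.smooth.continuous.comp UpperHalfPlane.continuous_coe
  have hφ := testR_cut' hψ.smooth hχ
  have hφ0 : ∀ z, 0 ≤ χ z * ext ψ z := fun z => mul_nonneg (hχ1 z).1 (hψ0 _)
  have hmain := hR _ hφ hφ0 B (ε / 2) (by positivity)
  have herr : ∫ z in ModularGroup.fdo, (1 - χ z) * ψ z ≤ η / (2 * W) :=
    (cut_error hKc hχ1 hχK' hχ.smooth.continuous hψi hψ0).trans hKi.le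
  filter_upwards [hmain] with i hi hiB
  rw [integral_cut hχ ψ (fun z => f i z ^ (2 * j)),
    integral_cut hχ ψ (fun z => f i z ^ (2 * (j + 1))),
    integral_cut hχ ψ (fun z => f i z ^ (2 * (j + 2)))] at hi
  have jm : ∀ m : ℕ, IntegrableOn (fun z : ℍ => χ z * ψ z * f i z ^ m) ModularGroup.fdo := fun m =>
    integrableOn_fdo ((hχc.mul hψc).mul ((hfc i).pow m)) (fun z hz h => by
      rw [hYo z hz h]; ring)
  have hle : ∀ m : ℕ, ∫ z in ModularGroup.fdo, χ z * ψ z * f i z ^ (2 * m) ≤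
      ∫ z in ModularGroup.fdo, ψ z * f i z ^ (2 * m) := by
    intro m
    apply integral_mono (jm _) (him i _)
    intro z
    simp only
    have h8 : χ z * ψ z ≤ ψ z := by nlinarith [(hχ1 z).2, hψ0 z]
    exact mul_le_mul_of_nonneg_right h8 (hev _ _ z)
  have hnn1 : ∀ m : ℕ, 0 ≤ ∫ z in ModularGroup.fdo, χ z * ψ z * f i z ^ (2 * m) := fun m =>
    integral_nonneg fun z => mul_nonneg (mul_nonneg (hχ1 z).1 (hψ0 z)) (hev _ _ z)
  have hnn2 : ∀ m : ℕ, 0 ≤ ∫ z in ModularGroup.fdo, ψ z * f i z ^ (2 * m) := fun m =>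
    integral_nonneg fun z => mul_nonneg (hψ0 z) (hev _ _ z)
  have hi' := hi ((hle (j + 2)).trans hiB)
  -- bound for the middle moment
  have haM : ∫ z in ModularGroup.fdo, ψ z * f i z ^ (2 * (j + 1)) ≤ M := by
    calc _ ≤ ∫ z in ModularGroup.fdo, (ψ z * f i z ^ (2 * (j + 2)) + ψ z) := by
          refine integral_mono (him i _) ((him i _).add hψi) fun z => ?_
          have h1 := CtM.split_pow (sq_nonneg (f i z)) one_pos j
          rw [← pow_mul, ← pow_mul] at h1
          have h2 := mul_le_mul_of_nonneg_left h1 (hψ0 z)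
          simp only [div_one, one_pow, one_mul] at h2 ⊢
          linarith
      _ = (∫ z in ModularGroup.fdo, ψ z * f i z ^ (2 * (j + 2))) + A :=
          integral_add (him i _) hψi
      _ ≤ _ := by rw [hM]; linarith
  -- the loss in the middle moment
  have c3 : ∫ z in ModularGroup.fdo, ψ z * f i z ^ (2 * (j + 1)) ≤
      (∫ z in ModularGroup.fdo, χ z * ψ z * f i z ^ (2 * (j + 1))) + η := by
    have i4 : IntegrableOn (fun z : ℍ => (1 - χ z) * ψ z) ModularGroup.fdo :=
      integrableOn_fdo ((continuous_const.sub hχc).mul hψc) (fun z hz h => by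
        rw [hYo z hz h]; simp)
    have k2 : IntegrableOn (fun z : ℍ => δ * (ψ z * f i z ^ (2 * (j + 2)))) ModularGroup.fdo :=
      (him i _).const_mul δ
    have k3 : IntegrableOn (fun z : ℍ => W * ((1 - χ z) * ψ z)) ModularGroup.fdo :=
      i4.const_mul W
    have h1 : ∫ z in ModularGroup.fdo, ψ z * f i z ^ (2 * (j + 1)) ≤
        ∫ z in ModularGroup.fdo, (χ z * ψ z * f i z ^ (2 * (j + 1)) +
          (δ * (ψ z * f i z ^ (2 * (j + 2))) + W * ((1 - χ z) * ψ z))) := by
      refine integral_mono (him i _) ((jm _).add (k2.add k3)) fun z => ?_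
      have h2 := CtM.split_pow (sq_nonneg (f i z)) hδ0 j
      rw [← pow_mul, ← pow_mul] at h2
      have c1 : 0 ≤ 1 - χ z := by linarith [(hχ1 z).2]
      have c2 : 1 - χ z ≤ 1 := by linarith [(hχ1 z).1]
      have c7 : 0 ≤ (1 - χ z) * ψ z := mul_nonneg c1 (hψ0 z)
      have h3 := mul_le_mul_of_nonneg_left h2 c7
      have c8 : 0 ≤ δ * (ψ z * f i z ^ (2 * (j + 2))) :=
        mul_nonneg hδ0.le (mul_nonneg (hψ0 z) (hev _ _ z))
      have c9 := mul_le_mul_of_nonneg_right c2 c8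
      simp only
      calc ψ z * f i z ^ (2 * (j + 1)) = χ z * ψ z * f i z ^ (2 * (j + 1)) +
            (1 - χ z) * ψ z * f i z ^ (2 * (j + 1)) := by ring
        _ ≤ χ z * ψ z * f i z ^ (2 * (j + 1)) +
            (1 - χ z) * ψ z * (δ * f i z ^ (2 * (j + 2)) + W) := by linarith
        _ = χ z * ψ z * f i z ^ (2 * (j + 1)) +
            ((1 - χ z) * (δ * (ψ z * f i z ^ (2 * (j + 2)))) + W * ((1 - χ z) * ψ z)) := by ring
        _ ≤ _ := by linarith
    have e1 : ∫ z in ModularGroup.fdo, (χ z * ψ z * f i z ^ (2 * (j + 1)) +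
          (δ * (ψ z * f i z ^ (2 * (j + 2))) + W * ((1 - χ z) * ψ z))) =
        (∫ z in ModularGroup.fdo, χ z * ψ z * f i z ^ (2 * (j + 1))) +
        (δ * (∫ z in ModularGroup.fdo, ψ z * f i z ^ (2 * (j + 2))) +
          W * ∫ z in ModularGroup.fdo, (1 - χ z) * ψ z) := by
      have e2 : ∫ z in ModularGroup.fdo, (δ * (ψ z * f i z ^ (2 * (j + 2))) +
          W * ((1 - χ z) * ψ z)) = (∫ z in ModularGroup.fdo, δ * (ψ z * f i z ^ (2 * (j + 2)))) +
          ∫ z in ModularGroup.fdo, W * ((1 - χ z) * ψ z) := integral_add k2 k3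
      have e3 : ∫ z in ModularGroup.fdo, (χ z * ψ z * f i z ^ (2 * (j + 1)) +
          (δ * (ψ z * f i z ^ (2 * (j + 2))) + W * ((1 - χ z) * ψ z))) =
          (∫ z in ModularGroup.fdo, χ z * ψ z * f i z ^ (2 * (j + 1))) +
          ∫ z in ModularGroup.fdo, (δ * (ψ z * f i z ^ (2 * (j + 2))) +
          W * ((1 - χ z) * ψ z)) := integral_add (jm _) (k2.add k3)
      rw [e3, e2, integral_const_mul, integral_const_mul]
    rw [e1] at h1
    have h6 : δ * (∫ z in ModularGroup.fdo, ψ z * f i z ^ (2 * (j + 2))) ≤ δ * B :=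
      mul_le_mul_of_nonneg_left hiB hδ0.le
    have h7 : W * (∫ z in ModularGroup.fdo, (1 - χ z) * ψ z) ≤ W * (η / (2 * W)) :=
      mul_le_mul_of_nonneg_left herr hW0.le
    have h8 : W * (η / (2 * W)) = η / 2 := by field_simp
    linarith
  exact CtM.numb (K := K) (L := L) (M := M) (η := η) (ε := ε) (hnn1 (j + 1)) c3
    (hnn2 (j + 1)) haM hη0.le (hle (j + 1)) hK0.le hL0.le (hnn1 j) (hle j)
    (hnn1 (j + 2)) (hle (j + 2)) rfl hηε hi'

end CxM

theorem stmtCx : StmtCx := fun f t hf j hR => CxM.main f t hf j hR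

end

end Pool.Agent.A54.EM
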