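import Pool.Agent.Lib.MP_a54f13_nt.Err
import Pool.Agent.Lib.MP_a54f13_nt.Cacc
import Pool.Agent.Lib.MP_a54f13_nt.IntLap
import Pool.Agent.Lib.MP_a54f13_nt.Ev.De
import Pool.Agent.Lib.MP_a54f13_nt.Ev.Dd
import Pool.Agent.Lib.MP_a54f13_nt.Ev.Dif
import Pool.Agent.Lib.MP_a54f13_nt.Ev.Ldk
import Pool.Agent.Lib.MP_a54f13_nt.Ev.Lkb
import Pool.Agent.Lib.MP_a54f13_nt.Ev.Sml
import Pool.Agent.Lib.MP_a54f13_nt.Ev.Id1
import Pool.Agent.Lib.MP_a54f13_nt.Ev.Id2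
import Pool.Agent.Lib.MP_a54f13_nt.EM.Cv
import Pool.Agent.Lib.MP_a54f13_nt.EM.Ct
import Pool.Agent.Lib.MP_a54f13_nt.EM.Ch
import Pool.Agent.Lib.MP_a54f13_nt.EM.Cx

/-!
Package `EM`: assembly.
-/

set_option autoImplicit false

namespace Pool.Agent.A54.EM

open MeasureTheory Filter Topology Set
open scoped ContDiff ComplexConjugate UpperHalfPlane MatrixGroups
open Pool.Agent.A54.Ev

theorem cDd : StmtDd := stmtDd stmtDe

theorem cDif : StmtDif := stmtDif stmtDe cDd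

theorem cSml : StmtSml := stmtSml (stmtLkb stmtErr (stmtCacc stmtErr) stmtLdk)

theorem cId1 : StmtId1 := stmtId1 cSml stmtDe cDif

theorem cId2 : StmtId2 := stmtId2 cSml stmtDe cDif

theorem cCt : StmtCt := stmtCt (stmtCv stmtDe cId1 cId2)

theorem cCh : StmtCh := stmtCh stmtInt stmtLap cCt

theorem finalC {f : ℕ → ℍ → ℝ} {t : ℕ → ℝ} (hf : ∀ i, IsHeckeMaass (f i) (t i))
    (ht : Tendsto t atTop atTop) (j : ℕ) : FinalC j f :=
  stmtCx f t hf j (cCh f t ⟨hf, ht⟩ j)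

/-- the recursion for the central binomial coefficients -/
lemma cbin (j : ℕ) : ((j : ℝ) + 1) * (Nat.centralBinom (j + 1) : ℝ) =
    2 * (2 * (j : ℝ) + 1) * (Nat.centralBinom j : ℝ) := by
  have := Nat.succ_mul_centralBinom_succ j
  exact_mod_cast this

/-- log-convexity of the normalized even moments `s_k = 2^k ∫ ψ f^(2k) / binom(2k, k)` -/
theorem logConvex {f : ℕ → ℍ → ℝ} {t : ℕ → ℝ} (hf : ∀ i, IsHeckeMaass (f i) (t i))
    (ht : Tendsto t atTop atTop) {ψ : ℍ → ℝ} (hψ : TestX ψ) (hψ0 : ∀ z, 0 ≤ ψ z) (j : ℕ)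
    (B ε : ℝ) (hε : 0 < ε) : ∀ᶠ i in atTop,
      ∫ z in ModularGroup.fdo, ψ z * f i z ^ (2 * (j + 2)) ≤ B →
        sk ψ (f i) (j + 1) ^ 2 ≤ sk ψ (f i) j * sk ψ (f i) (j + 2) + ε := by
  have c0 : (0 : ℝ) < Nat.centralBinom j := by exact_mod_cast Nat.centralBinom_pos j
  have c1 : (0 : ℝ) < Nat.centralBinom (j + 1) := by exact_mod_cast Nat.centralBinom_pos (j + 1)
  have c2 : (0 : ℝ) < Nat.centralBinom (j + 2) := by exact_mod_cast Nat.centralBinom_pos (j + 2)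
  have hj0 : (0 : ℝ) ≤ (j : ℝ) := Nat.cast_nonneg j
  set C0 : ℝ := (Nat.centralBinom j : ℝ) with hC0
  set C1 : ℝ := (Nat.centralBinom (j + 1) : ℝ) with hC1
  set C2 : ℝ := (Nat.centralBinom (j + 2) : ℝ) with hC2
  set K : ℝ := ((j : ℝ) + 1) * (2 * j + 3) with hK
  set L : ℝ := (2 * (j : ℝ) + 1) * (j + 2) with hL
  have hK0 : 0 < K := by positivity
  have hL0 : 0 < L := by positivity
  have e1 : ((j : ℝ) + 1) * C1 = 2 * (2 * (j : ℝ) + 1) * C0 := cbin j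
  have e2 : ((j : ℝ) + 2) * C2 = 2 * (2 * (j : ℝ) + 3) * C1 := by
    have h := cbin (j + 1)
    push_cast at h
    have h1 : (j : ℝ) + 1 + 1 = j + 2 := by ring
    have h2 : 2 * ((j : ℝ) + 1) + 1 = 2 * j + 3 := by ring
    rw [h1, h2] at h
    exact h
  -- `C0 C2 L = C1² K`
  have e3 : C0 * C2 * L = C1 ^ 2 * K := by
    have h1 : (2 * (2 * (j : ℝ) + 1) * C0) * (((j : ℝ) + 2) * C2) =
      (((j : ℝ) + 1) * C1) * (2 * (2 * (j : ℝ) + 3) * C1) := by rw [e1, e2]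
    have h2 : 2 * (C0 * C2 * L) = 2 * (C1 ^ 2 * K) := by
      rw [hL, hK]
      linear_combination h1
    linarith
  set ε' : ℝ := ε * (K * C1 ^ 2 / 4 ^ (j + 1)) with hε'
  have hε'0 : 0 < ε' := by positivity
  filter_upwards [finalC hf ht j ψ hψ hψ0 B ε' hε'0] with i hi hB
  have h := hi hB
  unfold sk
  set a0 := ∫ z in ModularGroup.fdo, ψ z * f i z ^ (2 * j)
  set a1 := ∫ z in ModularGroup.fdo, ψ z * f i z ^ (2 * (j + 1))
  set a2 := ∫ z in ModularGroup.fdo, ψ z * f i z ^ (2 * (j + 2))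
  have e4 : (2 ^ (j + 1) * a1 / C1) ^ 2 = 4 ^ (j + 1) / (K * C1 ^ 2) * (K * a1 ^ 2) := by
    have : (2 : ℝ) ^ (j + 1) * 2 ^ (j + 1) = 4 ^ (j + 1) := by
      rw [← mul_pow]; norm_num
    field_simp
    rw [← this]
    ring
  have e5 : 2 ^ j * a0 / C0 * (2 ^ (j + 2) * a2 / C2) =
      4 ^ (j + 1) / (K * C1 ^ 2) * (L * (a0 * a2)) := by
    have h3 : (2 : ℝ) ^ j * 2 ^ (j + 2) = 4 ^ (j + 1) := by
      rw [show (4 : ℝ) = 2 * 2 by norm_num, mul_pow]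
      ring
    have h4 : K * C1 ^ 2 = C0 * C2 * L := by rw [e3]; ring
    rw [h4]
    field_simp
    rw [← h3]
    ring
  have e6 : 4 ^ (j + 1) / (K * C1 ^ 2) * ε' = ε := by
    rw [hε']
    field_simp
  rw [e4, e5]
  have h5 : 4 ^ (j + 1) / (K * C1 ^ 2) * (K * a1 ^ 2 - ε') ≤
      4 ^ (j + 1) / (K * C1 ^ 2) * (L * (a0 * a2)) := mul_le_mul_of_nonneg_left h (by positivity)
  have h6 : 4 ^ (j + 1) / (K * C1 ^ 2) * (K * a1 ^ 2 - ε') =
      4 ^ (j + 1) / (K * C1 ^ 2) * (K * a1 ^ 2) - ε := by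
    rw [mul_sub, e6]
  linarith

end Pool.Agent.A54.EM
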