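import Pool.Agent.Lib.MP_a54f13_nt.Ev.Spec

/-!
# Package `EM`: log-convexity of the even moments of Hecke–Maass forms (on top of the package `Ev`)

Architect: helper89.  GOAL: for every sequence of real Hecke–Maass cusp forms `f_i` of `SL(2, ℤ)` with `t_i → ∞`, every `ψ ≥ 0` in `C_c^∞(X)`, every `j ≥ 0`, `B` and `ε > 0`:
for all large `i` with `∫ ψ f_i^(2j+4) ≤ B`
`s_(j+1)(i)^2 ≤ s_j(i) s_(j+2)(i) + ε`, where `s_k(i) = 2^k ∫ ψ f_i^(2k) / binom(2k, k)`.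
So all limit points of the sequence of the moments are log-convex in this normalization, `s_(k+1) / s_k` is nondecreasing in `k`.

PROOF (flat model, `e = u² + |∇u|²`, `X = ∇u · ∇e`, `a_(2k) = ∫ φ u^(2k)`): `(I1)` of `Ev` with `i = 0`: `(2j+1) ∫ φ u^(2j) e = (2j+2) a_(2j+2)` and `(2j+3) ∫ φ u^(2j+2) e = (2j+4) a_(2j+4)`; with `i = 1`
and `∫ φ u^(2j+1) X ≥ - o(1)`: `(2j+1) ∫ φ u^(2j) e² ≤ (2j+2) ∫ φ u^(2j+2) e + o(1)`; Cauchy–Schwarz `(∫ φ u^(2j) e)² ≤ a_(2j) ∫ φ u^(2j) e²`.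
-/

set_option autoImplicit false

namespace Pool.Agent.A54.EM

open MeasureTheory Filter Topology Set
open scoped ContDiff ComplexConjugate UpperHalfPlane MatrixGroups
open Pool.Agent.A54.Ev

noncomputable section

/-- **Cv** local version, bounded moments (uses `StmtDe`, `StmtId1`, `StmtId2`). -/
def StmtCv : Prop := ∀ j : ℕ, ∀ (V : Set ℂ) (q : ℂ → ℝ) (h : ℕ → ℝ) (f : ℕ → ℂ → ℝ), Seq V q h f →
  LkBdd (j + 2) V f → ∀ φ : ℂ → ℝ, TestR V φ → (∀ z, 0 ≤ φ z) → ∀ ε : ℝ, 0 < ε → ∀ᶠ n in atTop,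
    ((j : ℝ) + 1) * (2 * j + 3) * (∫ z, φ z * f n z ^ (2 * (j + 1))) ^ 2 - ε ≤
      (2 * j + 1) * (j + 2) * ((∫ z, φ z * f n z ^ (2 * j)) * ∫ z, φ z * f n z ^ (2 * (j + 2)))

/-- **Ct** local version (uses `StmtCv`). -/
def StmtCt : Prop := ∀ j : ℕ, ∀ (V : Set ℂ) (q : ℂ → ℝ) (h : ℕ → ℝ) (f : ℕ → ℂ → ℝ), Seq V q h f →
  ∀ φ : ℂ → ℝ, TestR V φ → (∀ z, 0 ≤ φ z) → ∀ B ε : ℝ, 0 < ε → ∀ᶠ n in atTop,
    ∫ z, φ z * f n z ^ (2 * (j + 2)) ≤ B →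
    ((j : ℝ) + 1) * (2 * j + 3) * (∫ z, φ z * f n z ^ (2 * (j + 1))) ^ 2 - ε ≤
      (2 * j + 1) * (j + 2) * ((∫ z, φ z * f n z ^ (2 * j)) * ∫ z, φ z * f n z ^ (2 * (j + 2)))

/-- log-convexity against test functions with support in the open fundamental domain -/
def HalfC (j : ℕ) (f : ℕ → ℍ → ℝ) : Prop :=
  ∀ φ : ℂ → ℝ, TestR Ofd φ → (∀ z, 0 ≤ φ z) → ∀ B ε : ℝ, 0 < ε → ∀ᶠ i in atTop,
    ∫ z : ℍ, φ z * f i z ^ (2 * (j + 2)) ≤ B →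
    ((j : ℝ) + 1) * (2 * j + 3) * (∫ z : ℍ, φ z * f i z ^ (2 * (j + 1))) ^ 2 - ε ≤
      (2 * j + 1) * (j + 2) * ((∫ z : ℍ, φ z * f i z ^ (2 * j)) * ∫ z : ℍ, φ z * f i z ^ (2 * (j + 2)))

/-- log-convexity on the modular surface -/
def FinalC (j : ℕ) (f : ℕ → ℍ → ℝ) : Prop :=
  ∀ ψ : ℍ → ℝ, TestX ψ → (∀ z, 0 ≤ ψ z) → ∀ B ε : ℝ, 0 < ε → ∀ᶠ i in atTop,
    ∫ z in ModularGroup.fdo, ψ z * f i z ^ (2 * (j + 2)) ≤ B →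
    ((j : ℝ) + 1) * (2 * j + 3) * (∫ z in ModularGroup.fdo, ψ z * f i z ^ (2 * (j + 1))) ^ 2 - ε ≤
      (2 * j + 1) * (j + 2) * ((∫ z in ModularGroup.fdo, ψ z * f i z ^ (2 * j)) *
        ∫ z in ModularGroup.fdo, ψ z * f i z ^ (2 * (j + 2)))

/-- `s_k(i)`, the normalized even moment -/
def sk (ψ : ℍ → ℝ) (f : ℍ → ℝ) (k : ℕ) : ℝ :=
  2 ^ k * (∫ z in ModularGroup.fdo, ψ z * f z ^ (2 * k)) / Nat.centralBinom k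

/-- **Ch** the half-plane (uses `StmtInt`, `StmtLap`, `StmtCt`). -/
def StmtCh : Prop := ∀ (f : ℕ → ℍ → ℝ) (t : ℕ → ℝ), Dyn.HM f t → ∀ j : ℕ, HalfC j f

/-- **Cx** the modular surface (no hypotheses). -/
def StmtCx : Prop := ∀ (f : ℕ → ℍ → ℝ) (t : ℕ → ℝ), (∀ i, IsHeckeMaass (f i) (t i)) → ∀ j : ℕ,
  HalfC j f → FinalC j f

end

end Pool.Agent.A54.EM
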